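import Pool.Agent.helper51.RMX.Spec

/-!
Row IXX of project rmx (MP_24e2e7_nt): the exact index of the lattice.
-/

set_option autoImplicit false

namespace Pool.Agent.RMX

open Pool.Agent.RB NumberField IsDedekindDomain Module
open scoped nonZeroDivisors Real Classical IsMulCommutative

theorem IXX (hIAX : IAX_stmt) (hIBX : IBX_stmt) : IXX_stmt := by
  intro k K _ _ _ _ _ _ _ _ c hc1 hck T hT hζ
  have hIDB : IDB_stmt := IDB ORD CCJ
  obtain ⟨hBD, -⟩ := hIDB k K c hc1 hck {P : HOS K | P.under (𝓞 k) ∉ T}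
  have hA := hIAX k K c hc1 hck T hT hζ
  have hB := hIBX k K c hc1 hck T
  have hamb := fin_amb k K c hc1 hck
  have hAB : dM c {P : HOS K | P.under (𝓞 k) ∉ T} {P : HOS K | P.under (𝓞 k) ∈ T} ≤
      dM c {P : HOS K | P.under (𝓞 k) ∉ T} ∅ := by
    rintro D ⟨x, ⟨h1, h2, _⟩, h4⟩
    exact ⟨x, ⟨h1, h2, fun P hP => absurd hP (Set.notMem_empty P)⟩, h4⟩
  have hmul := AddSubgroup.relIndex_mul_relIndex _ _ _ hAB hBD
  have h3 : (((Pr K ⊔ Inv c).index * 2 ^ {q : HOS k | ty K q = 0}.ncard * classNumber k *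
      IsCMField.indexRealUnits K : ℕ) : ℤ) = ((2 * classNumber K : ℕ) : ℤ) := by
    rw [hamb]
  push_cast at h3
  rw [← hmul, hB, ← hA, ← h3]
  push_cast
  ring

end Pool.Agent.RMX
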