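import Pool.Agent.helper51.RMX.Spec

/-!
Row TWX of project rmx (MP_24e2e7_nt): a tower of CM fields.
-/

set_option autoImplicit false

namespace Pool.Agent.RMX

open Pool.Agent.RB NumberField IsDedekindDomain Module
open scoped nonZeroDivisors Real Classical IsMulCommutative

/-- restriction to a fixed field, as elements of `H` -/
theorem TWX_res {F H : Type} [Field F] [NumberField F] [Field H] [NumberField H] [Algebra F H]
    [IsAbelianGalois F H] (B : Subgroup (H ≃ₐ[F] H)) (σ : H ≃ₐ[F] H)
    (y : IntermediateField.fixedField B) :
    (((AlgEquiv.restrictNormalHom (IntermediateField.fixedField B) σ :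
      IntermediateField.fixedField B ≃ₐ[F] IntermediateField.fixedField B) y : _) : H) =
        σ (y : H) :=
  AlgEquiv.restrictNormal_commutes σ (IntermediateField.fixedField B) y

theorem TWX_ker {F H : Type} [Field F] [NumberField F] [Field H] [NumberField H] [Algebra F H]
    [IsAbelianGalois F H] (B : Subgroup (H ≃ₐ[F] H)) :
    (AlgEquiv.restrictNormalHom (IntermediateField.fixedField B) :
      (H ≃ₐ[F] H) →* (IntermediateField.fixedField B ≃ₐ[F] IntermediateField.fixedField B)).ker =
      B := by
  rw [IntermediateField.restrictNormalHom_ker, IntermediateField.fixingSubgroup_fixedField]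

/-- the fixed field of a group which does not contain complex conjugation is a CM field -/
theorem TWX_cm {F H : Type} [Field F] [NumberField F] [Field H] [NumberField H] [Algebra F H]
    [IsAbelianGalois F H] [IsTotallyReal F] [IsCMField H] (c : H ≃ₐ[F] H)
    (hc : ∀ x : H, c x = IsCMField.complexConj H x) (B : Subgroup (H ≃ₐ[F] H)) (hcB : c ∉ B) :
    IsCMField (IntermediateField.fixedField B) := by
  have hcc : c * c = 1 := by
    ext x
    change c (c x) = x
    rw [hc, hc]
    exact IsCMField.complexConj_apply_apply H x
  have hcomm : ∀ a b : H ≃ₐ[F] H, a * b = b * a := fun a b => mul_comm a b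
  obtain ⟨hPsi, hcard⟩ := TWR_group hcomm B c hcc hcB
  have hkK : IntermediateField.fixedField (B ⊔ Subgroup.zpowers c) ≤
      IntermediateField.fixedField B := IntermediateField.fixedField_antitone le_sup_left
  let iA : Algebra (IntermediateField.fixedField (B ⊔ Subgroup.zpowers c))
      (IntermediateField.fixedField B) := (IntermediateField.inclusion hkK).toRingHom.toAlgebra
  have i1 : IsScalarTower F (IntermediateField.fixedField (B ⊔ Subgroup.zpowers c))
      (IntermediateField.fixedField B) := IsScalarTower.of_algebraMap_eq (fun x => rfl)
  have i2 : IsScalarTower (IntermediateField.fixedField (B ⊔ Subgroup.zpowers c))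
      (IntermediateField.fixedField B) H := IsScalarTower.of_algebraMap_eq (fun x => rfl)
  have hfKH : finrank (IntermediateField.fixedField B) H = Nat.card B :=
    IntermediateField.finrank_fixedField_eq_card B
  have hfkH : finrank (IntermediateField.fixedField (B ⊔ Subgroup.zpowers c)) H =
      Nat.card (B ⊔ Subgroup.zpowers c : Subgroup (H ≃ₐ[F] H)) :=
    IntermediateField.finrank_fixedField_eq_card _
  have hquad : finrank (IntermediateField.fixedField (B ⊔ Subgroup.zpowers c))
      (IntermediateField.fixedField B) = 2 := by
    have h1 := finrank_mul_finrank (IntermediateField.fixedField (B ⊔ Subgroup.zpowers c))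
      (IntermediateField.fixedField B) H
    rw [hfKH, hfkH, hcard] at h1
    have h2 : 0 < Nat.card B := Nat.card_pos
    exact Nat.eq_of_mul_eq_mul_right h2 h1
  have i3 : Algebra.IsQuadraticExtension (IntermediateField.fixedField (B ⊔ Subgroup.zpowers c))
      (IntermediateField.fixedField B) := ⟨hquad⟩
  have hfixk : ∀ x : IntermediateField.fixedField (B ⊔ Subgroup.zpowers c), c (x : H) = x := by
    intro x
    have h1 : c ∈ B ⊔ Subgroup.zpowers c := Subgroup.mem_sup_right (Subgroup.mem_zpowers c)
    exact x.2 ⟨c, h1⟩
  have i4 : IsTotallyReal (IntermediateField.fixedField (B ⊔ Subgroup.zpowers c)) := by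
    refine ⟨fun v => ?_⟩
    rw [InfinitePlace.isReal_iff, ComplexEmbedding.isReal_iff]
    ext x
    have h1 := ComplexEmbedding.lift_algebraMap_apply H v.embedding x
    have h2 : algebraMap (IntermediateField.fixedField (B ⊔ Subgroup.zpowers c)) H x = (x : H) :=
      rfl
    rw [h2] at h1
    change star (v.embedding x) = v.embedding x
    rw [← h1]
    have h3 := IsCMField.complexEmbedding_complexConj H (ComplexEmbedding.lift H v.embedding) (x : H)
    rw [← hc, hfixk] at h3
    exact h3.symm
  have i5 : IsTotallyComplex (IntermediateField.fixedField B) := by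
    refine ⟨fun v => ?_⟩
    rw [InfinitePlace.isComplex_iff, ComplexEmbedding.isReal_iff]
    intro hv
    apply hcB
    rw [← TWX_ker B, MonoidHom.mem_ker]
    ext y
    have h0 : c (y : H) = (y : H) := by
      apply (ComplexEmbedding.lift H v.embedding).injective
      have h1 := ComplexEmbedding.lift_algebraMap_apply H v.embedding y
      have h2 : algebraMap (IntermediateField.fixedField B) H y = (y : H) := rfl
      rw [h2] at h1
      rw [hc, IsCMField.complexEmbedding_complexConj, h1]
      have h3 := RingHom.congr_fun hv y
      exact h3
    rw [TWX_res, h0]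
    rfl
  exact IsCMField.ofCMExtension (IntermediateField.fixedField (B ⊔ Subgroup.zpowers c)) _

/-- the restriction of `c` is complex conjugation -/
theorem TWX_conj {F H : Type} [Field F] [NumberField F] [Field H] [NumberField H] [Algebra F H]
    [IsAbelianGalois F H] [IsCMField H] (c : H ≃ₐ[F] H)
    (hc : ∀ x : H, c x = IsCMField.complexConj H x) (B : Subgroup (H ≃ₐ[F] H))
    [IsCMField (IntermediateField.fixedField B)] (x y : IntermediateField.fixedField B)
    (h : (y : H) = c (x : H)) :
    y = IsCMField.complexConj (IntermediateField.fixedField B) x := by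
  obtain ⟨v⟩ : Nonempty (InfinitePlace (IntermediateField.fixedField B)) := inferInstance
  apply v.embedding.injective
  have h1 : ∀ z : IntermediateField.fixedField B,
      ComplexEmbedding.lift H v.embedding (z : H) = v.embedding z := fun z =>
    ComplexEmbedding.lift_algebraMap_apply H v.embedding z
  rw [IsCMField.complexEmbedding_complexConj, ← h1 y, h, hc,
    IsCMField.complexEmbedding_complexConj, h1]

theorem TWX_card {G K L : Type} [Group G] [Finite G] [Group K] [Group L] (f : G →* K)
    (hf : Function.Surjective f) (g : K →* L) (B B' : Subgroup G) (h1 : f.ker = B)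
    (h2 : (g.comp f).ker = B') : Nat.card g.ker * Nat.card B = Nat.card B' := by
  have : Finite K := Finite.of_surjective f hf
  have e1 := Subgroup.card_mul_index B
  have e2 := Subgroup.card_mul_index B'
  have e3 := Subgroup.card_mul_index g.ker
  have e4 : B' = g.ker.comap f := by
    rw [← h2]
    exact (MonoidHom.comap_ker g f).symm
  have e5 : B'.index = g.ker.index := by
    rw [e4]
    exact Subgroup.index_comap_of_surjective _ hf
  have e6 : B.index = Nat.card K := by
    rw [← h1, Subgroup.index_ker]
    have : f.range = ⊤ := MonoidHom.range_eq_top.2 hf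
    rw [this, Subgroup.card_top]
  have h3 : 0 < g.ker.index := Nat.pos_of_ne_zero Subgroup.index_ne_zero_of_finite
  refine Nat.eq_of_mul_eq_mul_right h3 ?_
  rw [e5] at e2
  rw [e2, ← e1, e6, ← e3]
  ring

theorem TWX : TWX_stmt := by
  intro F H _ _ _ _ _ _ _ _ c hc B B' hBB hcB'
  have hcB : c ∉ B := fun h => hcB' (hBB h)
  have hLK : IntermediateField.fixedField B' ≤ IntermediateField.fixedField B :=
    IntermediateField.fixedField_antitone hBB
  let iA : Algebra (IntermediateField.fixedField B') (IntermediateField.fixedField B) :=
    (IntermediateField.inclusion hLK).toRingHom.toAlgebra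
  have i1 : IsScalarTower F (IntermediateField.fixedField B') (IntermediateField.fixedField B) :=
    IsScalarTower.of_algebraMap_eq (fun x => rfl)
  have i6 : IsCMField (IntermediateField.fixedField B) := TWX_cm c hc B hcB
  have i7 : IsCMField (IntermediateField.fixedField B') := TWX_cm c hc B' hcB'
  have hres2 : ∀ (σ : H ≃ₐ[F] H) (x : IntermediateField.fixedField B'),
      (((AlgEquiv.restrictNormalHom (IntermediateField.fixedField B')
        (AlgEquiv.restrictNormalHom (IntermediateField.fixedField B) σ :
          IntermediateField.fixedField B ≃ₐ[F] IntermediateField.fixedField B) :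
        IntermediateField.fixedField B' ≃ₐ[F] IntermediateField.fixedField B') x : _) : H) =
          σ (x : H) := by
    intro σ x
    have h1 := AlgEquiv.restrictNormal_commutes
      (AlgEquiv.restrictNormalHom (IntermediateField.fixedField B) σ :
          IntermediateField.fixedField B ≃ₐ[F] IntermediateField.fixedField B)
      (IntermediateField.fixedField B') x
    have h2 := congrArg (fun z : IntermediateField.fixedField B => (z : H)) h1
    have h3 := TWX_res B σ (algebraMap (IntermediateField.fixedField B')
      (IntermediateField.fixedField B) x)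
    exact h2.trans h3
  have hker2 : ((AlgEquiv.restrictNormalHom (IntermediateField.fixedField B') :
      (IntermediateField.fixedField B ≃ₐ[F] IntermediateField.fixedField B) →*
        (IntermediateField.fixedField B' ≃ₐ[F] IntermediateField.fixedField B')).comp
      (AlgEquiv.restrictNormalHom (IntermediateField.fixedField B) : (H ≃ₐ[F] H) →*
        (IntermediateField.fixedField B ≃ₐ[F] IntermediateField.fixedField B))).ker = B' := by
    refine Eq.trans ?_ (IntermediateField.fixingSubgroup_fixedField B')
    ext σ
    rw [MonoidHom.mem_ker, IntermediateField.mem_fixingSubgroup_iff]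
    constructor
    · intro h x hx
      have h1 := hres2 σ ⟨x, hx⟩
      have h2 := congrArg (fun e : IntermediateField.fixedField B' ≃ₐ[F]
        IntermediateField.fixedField B' => ((e ⟨x, hx⟩ : _) : H)) h
      exact h1.symm.trans h2
    · intro h
      ext x
      exact (hres2 σ x).trans (h x x.2)
  refine ⟨IntermediateField.fixedField B', IntermediateField.fixedField B,
    inferInstance, inferInstance, inferInstance, inferInstance, inferInstance, iA, inferInstance,
    inferInstance, i1, inferInstance, inferInstance, inferInstance, i7, i6, TWX_ker B, hker2, ?_, ?_,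
    ?_⟩
  · intro x
    exact TWX_conj c hc B x _ (TWX_res B c x)
  · intro x
    exact TWX_conj c hc B' x _ (hres2 c x)
  · exact TWX_card _ (AlgEquiv.restrictNormalHom_surjective H) _ B B' (TWX_ker B) hker2

end Pool.Agent.RMX
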